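import Pool.Agent.Helper89.Vol4.Goals

/-! # MP_cd13d2_co : an adapted frame in dimension four (packet V47-FRM4) -/

set_option autoImplicit false

namespace Pool.Agent.Helper59.Vol4.PkFRM4

open MeasureTheory Set Pool.Agent.Helper86.Poly Pool.Agent.Helper89.Vol4

/-- the matrix of `L` -/
noncomputable def mat (L : E 4 ≃ₗᵢ[ℝ] E 4) : Matrix (Fin 4) (Fin 4) ℝ :=
  Matrix.of fun i j => L (EuclideanSpace.single j (1 : ℝ)) i

theorem mat_apply (L : E 4 ≃ₗᵢ[ℝ] E 4) (x : E 4) (i : Fin 4) :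
    L x i = x 0 * mat L i 0 + x 1 * mat L i 1 + x 2 * mat L i 2 + x 3 * mat L i 3 := by
  have h : x = x 0 • EuclideanSpace.single (0 : Fin 4) (1 : ℝ) +
      x 1 • EuclideanSpace.single (1 : Fin 4) (1 : ℝ) +
      x 2 • EuclideanSpace.single (2 : Fin 4) (1 : ℝ) +
      x 3 • EuclideanSpace.single (3 : Fin 4) (1 : ℝ) := by
    ext j
    fin_cases j <;> simp
  conv_lhs => rw [h]
  rw [map_add, map_add, map_add, map_smul, map_smul, map_smul, map_smul]
  simp [mat]

theorem mat_mul (L : E 4 ≃ₗᵢ[ℝ] E 4) : (mat L).transpose * mat L = 1 := by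
  ext j k
  rw [Matrix.mul_apply]
  have h := L.inner_map_map (EuclideanSpace.single j (1 : ℝ)) (EuclideanSpace.single k (1 : ℝ))
  have h2 : inner ℝ (L (EuclideanSpace.single j (1 : ℝ))) (L (EuclideanSpace.single k (1 : ℝ))) =
      ∑ i, mat L i j * mat L i k := by
    rw [PiLp.inner_apply]
    refine Finset.sum_congr rfl fun i _ => ?_
    simp [mat, mul_comm]
  rw [h2] at h
  simp only [Matrix.transpose_apply]
  rw [h, EuclideanSpace.inner_single_left]
  simp [Matrix.one_apply]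

theorem det_mat (L : E 4 ≃ₗᵢ[ℝ] E 4) : (mat L).det = 1 ∨ (mat L).det = -1 := by
  have h := congrArg Matrix.det (mat_mul L)
  rw [Matrix.det_mul, Matrix.det_transpose, Matrix.det_one] at h
  exact mul_self_eq_one_iff.1 h

theorem dt_map (L : E 4 ≃ₗᵢ[ℝ] E 4) (u v w z : E 4) :
    dt (L u) (L v) (L w) (L z) = (mat L).det * dt u v w z := by
  have h : !![L u 0, L u 1, L u 2, L u 3; L v 0, L v 1, L v 2, L v 3;
      L w 0, L w 1, L w 2, L w 3; L z 0, L z 1, L z 2, L z 3] =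
      !![u 0, u 1, u 2, u 3; v 0, v 1, v 2, v 3; w 0, w 1, w 2, w 3; z 0, z 1, z 2, z 3] *
        (mat L).transpose := by
    ext i j
    fin_cases i <;> fin_cases j <;>
      simp [Matrix.mul_apply, Fin.sum_univ_four, mat_apply L]
  rw [dt, dt, h, Matrix.det_mul, Matrix.det_transpose, mul_comm]

/-- a sign -/
theorem sgn (a : ℝ) : ∃ g : ℝ ≃ₗᵢ[ℝ] ℝ, g a = |a| := by
  rcases le_total 0 a with h | h
  · exact ⟨LinearIsometryEquiv.refl ℝ ℝ, by rw [abs_of_nonneg h]; rfl⟩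
  · exact ⟨LinearIsometryEquiv.neg ℝ, by rw [abs_of_nonpos h]; rfl⟩

theorem thm : Pool.Agent.Helper89.Vol4.G_FRM4 := by
  intro e e' n
  have hd : Module.finrank ℝ (E 4) = Fintype.card (Fin 4) := by simp
  let c : OrthonormalBasis (Fin 4) ℝ (E 4) :=
    InnerProductSpace.gramSchmidtOrthonormalBasis hd ![e, e', n, 0]
  have c02 : c.repr e 2 = 0 := InnerProductSpace.gramSchmidtOrthonormalBasis_inv_triangular' hd
    ![e, e', n, 0] (i := 0) (j := 2) (by decide)
  have c03 : c.repr e 3 = 0 := InnerProductSpace.gramSchmidtOrthonormalBasis_inv_triangular' hd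
    ![e, e', n, 0] (i := 0) (j := 3) (by decide)
  have c12 : c.repr e' 2 = 0 := InnerProductSpace.gramSchmidtOrthonormalBasis_inv_triangular' hd
    ![e, e', n, 0] (i := 1) (j := 2) (by decide)
  have c13 : c.repr e' 3 = 0 := InnerProductSpace.gramSchmidtOrthonormalBasis_inv_triangular' hd
    ![e, e', n, 0] (i := 1) (j := 3) (by decide)
  have c23 : c.repr n 3 = 0 := InnerProductSpace.gramSchmidtOrthonormalBasis_inv_triangular' hd
    ![e, e', n, 0] (i := 2) (j := 3) (by decide)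
  obtain ⟨g0, h0⟩ := sgn (c.repr n 2)
  let g : Fin 4 → (ℝ ≃ₗᵢ[ℝ] ℝ) := ![g0, LinearIsometryEquiv.refl ℝ ℝ,
    LinearIsometryEquiv.refl ℝ ℝ, LinearIsometryEquiv.refl ℝ ℝ]
  let π : Fin 4 ≃ Fin 4 := Equiv.addRight 2
  let L : E 4 ≃ₗᵢ[ℝ] E 4 := (c.reindex π.symm).repr.trans
    (LinearIsometryEquiv.piLpCongrRight 2 g)
  have hL : ∀ (x : E 4) (i : Fin 4), L x i = g i (c.repr x (π i)) := by
    intro x i
    show (LinearIsometryEquiv.piLpCongrRight 2 g ((c.reindex π.symm).repr x)) i = _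
    rw [LinearIsometryEquiv.piLpCongrRight_apply]
    show g i ((c.reindex π.symm).repr x i) = _
    rw [OrthonormalBasis.repr_reindex]
    rfl
  have r0 : π 0 = 2 := by decide
  have r1 : π 1 = 3 := by decide
  refine ⟨L, (mat L).det, det_mat L, dt_map L, ?_, ?_, ?_, ?_, ?_, ?_⟩
  · rw [hL, r0, c02, map_zero]
  · rw [hL, r1, c03, map_zero]
  · rw [hL, r0, c12, map_zero]
  · rw [hL, r1, c13, map_zero]
  · rw [hL, r1, c23, map_zero]
  · rw [hL, r0]
    show 0 ≤ g0 (c.repr n 2)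
    rw [h0]
    exact abs_nonneg _

end Pool.Agent.Helper59.Vol4.PkFRM4
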